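import Pool.Agent.L0h87.LE.Stm

/-! # Project LE: geometric sums over odd integers (module GEO) -/

set_option autoImplicit false

namespace Pool.Agent.L0h19.LE

open Finset Pool.Agent.L0h87.LE

theorem ee_add (s t : ℝ) : ee (s + t) = ee s * ee t := by
  unfold ee
  rw [← Complex.exp_add]
  congr 1
  push_cast
  ring

theorem norm_ee (t : ℝ) : ‖ee t‖ = 1 := by
  unfold ee
  have h : 2 * (Real.pi : ℂ) * Complex.I * (t : ℂ) = ((2 * Real.pi * t : ℝ) : ℂ) * Complex.I := by
    push_cast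
    ring
  rw [h, Complex.norm_exp_ofReal_mul_I]

theorem ee_mul_nat (t : ℝ) (s : ℕ) : ee (t * s) = ee t ^ s := by
  induction s with
  | zero =>
    rw [pow_zero, Nat.cast_zero, mul_zero]
    unfold ee
    rw [Complex.ofReal_zero, mul_zero, Complex.exp_zero]
  | succ s ih =>
    rw [pow_succ, ← ih, ← ee_add]
    congr 1
    push_cast
    ring

theorem low (β : ℝ) (h : |β| ≤ 1 / 4) : 8 * |β| ≤ ‖ee (2 * β) - 1‖ := by
  have h1 : ee (2 * β) = Complex.exp (Complex.I * ((4 * Real.pi * β : ℝ) : ℂ)) := by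
    unfold ee
    congr 1
    push_cast
    ring
  rw [h1, Complex.norm_exp_I_mul_ofReal_sub_one, Real.norm_eq_abs, abs_mul]
  have h2 : 4 * Real.pi * β / 2 = 2 * Real.pi * β := by ring
  rw [h2]
  have hpi := Real.pi_pos
  have h3 : |2 * Real.pi * β| = 2 * Real.pi * |β| := by
    rw [abs_mul, abs_of_pos (by positivity : (0 : ℝ) < 2 * Real.pi)]
  have h4 : |2 * Real.pi * β| ≤ Real.pi / 2 := by
    rw [h3]
    nlinarith
  have h5 := Real.mul_abs_le_abs_sin h4
  rw [h3] at h5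
  have h6 : 2 / Real.pi * (2 * Real.pi * |β|) = 4 * |β| := by
    field_simp
    ring
  rw [h6] at h5
  have h7 : |(2 : ℝ)| = 2 := abs_of_pos two_pos
  rw [h7]
  linarith

/-- module GEO -/
theorem GEO : Pool.Agent.L0h87.LE.GEO := by
  intro β J hβ h
  have hb : 0 < |β| := abs_pos.2 hβ
  have h1 : ∑ s ∈ range J, ee (β * (2 * s + 1)) = ee β * ∑ s ∈ range J, ee (2 * β) ^ s := by
    rw [mul_sum]
    apply sum_congr rfl
    intro s _
    rw [← ee_mul_nat, ← ee_add]
    congr 1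
    ring
  have hlow := low β h
  have h2 : (∑ s ∈ range J, ee (2 * β) ^ s) * (ee (2 * β) - 1) = ee (2 * β) ^ J - 1 :=
    geom_sum_mul _ _
  have h3 : ‖∑ s ∈ range J, ee (2 * β) ^ s‖ * ‖ee (2 * β) - 1‖ ≤ 2 := by
    rw [← norm_mul, h2]
    refine (norm_sub_le _ _).trans ?_
    rw [norm_pow, norm_ee, one_pow, norm_one]
    norm_num
  rw [h1, norm_mul, norm_ee, one_mul, le_div_iff₀ (by positivity)]
  have h4 := mul_le_mul_of_nonneg_left hlow (norm_nonneg (∑ s ∈ range J, ee (2 * β) ^ s))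
  linarith

end Pool.Agent.L0h19.LE
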